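import Pool.Agent.Lib.MP_564bf3_an.FinalB

/-!
# The extreme point condition is not necessary for unique convex supports

The counterexample is the real unit square `[0, 1]² ⊂ ℝ² ⊂ ℂ²`. Its support function is locally
the real part of a linear form on open cones, and by Phragmen-Lindelof theorems a strict decrease
of the growth of the Fourier-Borel transform in one direction of such a cone propagates to the
whole cone, which allows one to cut off the corresponding vertex of a carrier.
-/

open Set

namespace Pool.Agent.Results.MP_564bf3_an.RealSquare

open Pool.Agent.MP_564bf3_an

/-- The real unit square in `ℂ²` is a unique C-support, and it is the C-support of some analytic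
functional, but the closure of `S₀(K)` is a proper subset of `S(K)`. The last assertion holds if
the relative interior of `K` in `V(K)` is read as the interior of `K` in its complex affine span
(`intrinsicInterior ℂ`), and also if it is read as the interior of `K` in its real affine span
(`intrinsicInterior ℝ`). -/
theorem result :
    IsUniqueCSupport square ∧ IsSomeCSupport square ∧
    closure (supp₀ square (intrinsicInterior ℂ square)) ⊂ supp square ∧
    closure (supp₀ square (intrinsicInterior ℝ square)) ⊂ supp square := by
  refine ⟨unique_square, ⟨T₀, T₀_cont, T₀_support⟩, ?_, ?_⟩
  · rw [supp₀_eq_empty fun x hx i => re_of_intrinsicInterior affineSpan_square_complex hx i,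
      closure_empty]
    exact empty_ssubset.2 supp_nonempty
  · rw [supp₀_eq_empty fun x hx i => re_of_intrinsicInterior affineSpan_square_real hx i,
      closure_empty]
    exact empty_ssubset.2 supp_nonempty

end Pool.Agent.Results.MP_564bf3_an.RealSquare
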